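import Pool.Agent.Q165.PatBound

set_option autoImplicit false

/-!
# A permutation class with `c < s`

`Q165.PatClass.Contains σ π` is pattern containment, `Q165.PatClass.Av B n` the set of
permutations of length `n` containing no element of `B`.  For `B = Bas m` the class `Av B`
consists of the direct sums of permutations of length at most `m`.
-/

namespace Pool.Agent.Results.MP_cd0eb5_co.Unequal

open Equiv Finset Filter Topology Q165.PatClass

/-- The maximum size of a subsequence of `π` with pattern in the class `Av B`. -/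
noncomputable def L (B : Set (Σ k, Perm (Fin k))) {n : ℕ} (π : Perm (Fin n)) : ℕ :=
  sSup {k | ∃ σ ∈ Av B k, Contains σ π}

/-- The expectation of `L` for a uniform permutation of length `n`. -/
noncomputable def EL (B : Set (Σ k, Perm (Fin k))) (n : ℕ) : ℝ :=
  (∑ π : Perm (Fin n), (L B π : ℝ)) / n.factorial

theorem exists_pattern {k n : ℕ} (π : Perm (Fin n)) (f : Fin k ↪o Fin n) :
    ∃ σ : Perm (Fin k), ∀ i j, σ i < σ j ↔ π (f i) < π (f j) := by
  let g : Fin k → Fin n := fun i => π (f i)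
  have hg : Function.Injective g := fun i j h => f.injective (π.injective h)
  have hmono : StrictMono (g ∘ Tuple.sort g) :=
    (Tuple.monotone_sort g).strictMono_of_injective (hg.comp (Tuple.sort g).injective)
  refine ⟨(Tuple.sort g).symm, fun i j => ?_⟩
  have h1 := hmono.lt_iff_lt (a := (Tuple.sort g).symm i) (b := (Tuple.sort g).symm j)
  simp only [Function.comp_apply, Equiv.apply_symm_apply] at h1
  exact h1.symm

theorem contains_prefix {k l n : ℕ} (hkl : k ≤ l) {σ : Perm (Fin l)} {π : Perm (Fin n)}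
    (h : Contains σ π) : ∃ τ : Perm (Fin k), Contains τ σ ∧ Contains τ π := by
  obtain ⟨τ, hτ⟩ := exists_pattern σ (Fin.castLEOrderEmb hkl)
  have h1 : Contains τ σ := ⟨_, hτ⟩
  exact ⟨τ, h1, h1.trans h⟩

theorem contains_le {k n : ℕ} {σ : Perm (Fin k)} {π : Perm (Fin n)} (h : Contains σ π) :
    k ≤ n := by
  obtain ⟨f, -⟩ := h
  have := Fintype.card_le_of_injective f f.injective
  simpa using this

theorem L_spec (m : ℕ) {n : ℕ} (π : Perm (Fin n)) :
    L (Bas m) π ≤ n ∧ ∃ σ : Perm (Fin (L (Bas m) π)), Good m σ ∧ Contains σ π := by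
  have hb : BddAbove {k | ∃ σ ∈ Av (Bas m) k, Contains σ π} := by
    refine ⟨n, ?_⟩
    rintro k ⟨σ, -, h⟩
    exact contains_le h
  have hne : {k | ∃ σ ∈ Av (Bas m) k, Contains σ π}.Nonempty := by
    refine ⟨0, 1, ?_, ?_⟩
    · rw [Av_bas]
      intro p hp
      omega
    · refine ⟨Fin.castLEOrderEmb (Nat.zero_le n), fun i => i.elim0⟩
  have hmem := Nat.sSup_mem hne hb
  obtain ⟨σ, h1, h2⟩ := hmem
  rw [Av_bas] at h1
  exact ⟨contains_le h2, σ, h1, h2⟩

/-- The union bound. -/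
theorem card_long_le {n t i₀ m k : ℕ} (ht : 0 < t) (hk : k < n) (hki : k ≤ i₀ * m) (h : ℝ)
    (hh : 0 < h) (hhm : h ^ 2 ≤ m * ((n : ℝ) - k)) :
    ({π : Perm (Fin n) | k ≤ L (Bas m) π}.ncard : ℝ) ≤
      (2 ^ ((n / t + 1) + 2 * i₀)) ^ 2 * (n.factorial * Real.exp (m * (t * (((n / t + 1 : ℕ) : ℝ) +
        ((2 * i₀ : ℕ) : ℝ))) / (20 * h) - k / 21)) := by
  classical
  set K := n / t + 1 with hK
  set J := 2 * i₀ with hJ
  let M : Finset (Fin (J + 1) → Fin K) := univ.filter (fun α => Monotone α)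
  have hsub : {π : Perm (Fin n) | k ≤ L (Bas m) π} ⊆
      ⋃ p ∈ M ×ˢ M, {π : Perm (Fin n) | Ev t J m k K p.1 p.2 π} := by
    intro π hπ
    obtain ⟨-, σ, hσ, hc⟩ := L_spec m π
    obtain ⟨τ, h1, h2⟩ := contains_prefix hπ hc
    obtain ⟨α, β, hα, hβ, hev⟩ := exists_ev t i₀ π τ (hσ.of_contains h1) h2 hki
    rw [Set.mem_iUnion₂]
    exact ⟨(α, β), Finset.mem_product.mpr ⟨mem_filter.mpr ⟨mem_univ _, hα⟩,
      mem_filter.mpr ⟨mem_univ _, hβ⟩⟩, hev⟩
  have h1 := Set.ncard_le_ncard hsub (Set.toFinite _)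
  have h2 : (⋃ p ∈ M ×ˢ M, {π : Perm (Fin n) | Ev t J m k K p.1 p.2 π}).ncard ≤
      ∑ p ∈ M ×ˢ M, {π : Perm (Fin n) | Ev t J m k K p.1 p.2 π}.ncard := by
    have h3 : (⋃ p ∈ M ×ˢ M, {π : Perm (Fin n) | Ev t J m k K p.1 p.2 π}) =
        (((M ×ˢ M).biUnion (fun p => univ.filter
          (fun π : Perm (Fin n) => Ev t J m k K p.1 p.2 π)) : Finset (Perm (Fin n))) :
            Set (Perm (Fin n))) := by
      ext π
      rw [Set.mem_iUnion₂, Finset.mem_coe, Finset.mem_biUnion]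
      constructor
      · rintro ⟨p, hp, h⟩
        exact ⟨p, hp, mem_filter.mpr ⟨mem_univ _, h⟩⟩
      · rintro ⟨p, hp, h⟩
        exact ⟨p, hp, (mem_filter.mp h).2⟩
    rw [h3, Set.ncard_coe_finset]
    refine Finset.card_biUnion_le.trans ?_
    apply Finset.sum_le_sum
    intro p _
    apply le_of_eq
    rw [← Set.ncard_coe_finset]
    congr 1
    ext π
    simp
  have h4 : ({π : Perm (Fin n) | k ≤ L (Bas m) π}.ncard : ℝ) ≤
      ∑ p ∈ M ×ˢ M, ({π : Perm (Fin n) | Ev t J m k K p.1 p.2 π}.ncard : ℝ) := by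
    have := h1.trans h2
    exact_mod_cast this
  refine h4.trans ?_
  have h5 : ∀ p ∈ M ×ˢ M, ({π : Perm (Fin n) | Ev t J m k K p.1 p.2 π}.ncard : ℝ) ≤
      n.factorial * Real.exp (m * (t * ((K : ℝ) + J)) / (20 * h) - k / 21) := by
    intro p hp
    rw [Finset.mem_product] at hp
    exact ev_card_le ht hk h hh hhm p.1 p.2 (mem_filter.mp hp.1).2 (mem_filter.mp hp.2).2
  refine (Finset.sum_le_sum h5).trans ?_
  rw [Finset.sum_const, nsmul_eq_mul]
  apply mul_le_mul_of_nonneg_right _ (by positivity)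
  rw [Finset.card_product]
  have h6 : M.card ≤ 2 ^ (K + J) := card_mono_le J K
  have h7 : (M.card : ℝ) ≤ 2 ^ (K + J) := by exact_mod_cast h6
  push_cast
  rw [sq]
  exact mul_le_mul h7 h7 (by positivity) (by positivity)

theorem EL_le {n k m : ℕ} :
    EL (Bas m) n ≤ k + n * (({π : Perm (Fin n) | k ≤ L (Bas m) π}.ncard : ℝ) / n.factorial) := by
  classical
  have hf : (0 : ℝ) < n.factorial := by exact_mod_cast Nat.factorial_pos n
  unfold EL
  rw [div_le_iff₀ hf]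
  have h1 : ∀ π : Perm (Fin n), (L (Bas m) π : ℝ) ≤
      k + n * (if k ≤ L (Bas m) π then 1 else 0) := by
    intro π
    split_ifs with h
    · have : (L (Bas m) π : ℝ) ≤ n := by exact_mod_cast (L_spec m π).1
      have h0 : (0 : ℝ) ≤ k := by positivity
      linarith
    · have : (L (Bas m) π : ℝ) ≤ k := by exact_mod_cast (not_le.mp h).le
      linarith
  refine (Finset.sum_le_sum (fun π _ => h1 π)).trans ?_
  rw [Finset.sum_add_distrib, Finset.sum_const, card_univ, Fintype.card_perm, Fintype.card_fin,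
    nsmul_eq_mul, ← Finset.mul_sum]
  have h2 : ∑ π : Perm (Fin n), (if k ≤ L (Bas m) π then (1 : ℝ) else 0) =
      ({π : Perm (Fin n) | k ≤ L (Bas m) π}.ncard : ℝ) := by
    rw [Finset.sum_boole]
    congr 1
    rw [← Set.ncard_coe_finset]
    congr 1
    ext π
    simp
  rw [h2]
  have h3 : ((k : ℝ) + n * (({π : Perm (Fin n) | k ≤ L (Bas m) π}.ncard : ℝ) / n.factorial)) *
      n.factorial = n.factorial * k + n * ({π : Perm (Fin n) | k ≤ L (Bas m) π}.ncard : ℝ) := by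
    field_simp
  rw [h3]

/-- The upper bound for the expectation, with `m = 10 ^ 6` and `t = ⌊√n⌋ + 1`. -/
theorem EL_bound (n t : ℕ) (ht : 100000 ≤ t) (h1 : n < t ^ 2) (h2 : (t - 1) ^ 2 ≤ n) :
    EL (Bas (10 ^ 6)) n ≤ 1200 * t + 1 := by
  have ht' : (100000 : ℝ) ≤ t := by exact_mod_cast ht
  have hn1 : (n : ℝ) < (t : ℝ) ^ 2 := by exact_mod_cast h1
  have hn2 : ((t : ℝ) - 1) ^ 2 ≤ n := by
    have h3 : (((t - 1) ^ 2 : ℕ) : ℝ) ≤ n := by exact_mod_cast h2
    rw [Nat.cast_pow, Nat.cast_sub (by omega)] at h3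
    simpa using h3
  have hkn : 1200 * t < n := by
    have : (1200 : ℝ) * t < n := by nlinarith
    exact_mod_cast this
  set i₀ := 1200 * t / 10 ^ 6 + 1 with hi₀
  have hki : 1200 * t ≤ i₀ * 10 ^ 6 := by
    have := Nat.div_add_mod (1200 * t) (10 ^ 6)
    have h3 := Nat.mod_lt (1200 * t) (show 0 < 10 ^ 6 by norm_num)
    rw [hi₀]
    omega
  have hh : (0 : ℝ) < 990 * t := by positivity
  have hhm : (990 * (t : ℝ)) ^ 2 ≤ ((10 ^ 6 : ℕ) : ℝ) * ((n : ℝ) - ((1200 * t : ℕ) : ℝ)) := by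
    push_cast
    nlinarith
  have hmain := card_long_le (n := n) (t := t) (i₀ := i₀) (m := 10 ^ 6) (k := 1200 * t)
    (by omega) hkn hki (990 * t) hh hhm
  have hK : n / t + 1 ≤ t := by
    have : n / t < t := by
      rw [Nat.div_lt_iff_lt_mul (by omega), ← sq]
      exact h1
    omega
  have hi₀' : (i₀ : ℝ) ≤ 12 / 10000 * t + 1 := by
    have : (((1200 * t / 10 ^ 6 : ℕ)) : ℝ) ≤ ((1200 * t : ℕ) : ℝ) / ((10 ^ 6 : ℕ) : ℝ) :=
      Nat.cast_div_le
    rw [hi₀]
    push_cast at this ⊢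
    linarith
  have hKJ : ((n / t + 1 : ℕ) : ℝ) + ((2 * i₀ : ℕ) : ℝ) ≤ 10024 / 10000 * t + 2 := by
    have h3 : ((n / t + 1 : ℕ) : ℝ) ≤ t := by exact_mod_cast hK
    have h4 : ((2 * i₀ : ℕ) : ℝ) = 2 * (i₀ : ℝ) := by push_cast; ring
    rw [h4]
    linarith
  set D : ℝ := ((n / t + 1 : ℕ) : ℝ) + ((2 * i₀ : ℕ) : ℝ) with hD
  have hf : (0 : ℝ) < n.factorial := by exact_mod_cast Nat.factorial_pos n
  have hpow : ((2 : ℝ) ^ ((n / t + 1) + 2 * i₀)) ^ 2 ≤ Real.exp (2 * D) := by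
    have h3 : (2 : ℝ) ≤ Real.exp 1 := by
      have := Real.add_one_le_exp (1 : ℝ)
      linarith
    calc ((2 : ℝ) ^ ((n / t + 1) + 2 * i₀)) ^ 2 ≤ ((Real.exp 1) ^ ((n / t + 1) + 2 * i₀)) ^ 2 := by
          apply pow_le_pow_left₀ (by positivity)
          exact pow_le_pow_left₀ (by norm_num) h3 _
      _ = Real.exp (2 * D) := by
          rw [← Real.exp_nat_mul, ← Real.exp_nat_mul, hD]
          congr 1
          push_cast
          ring
  have hprob : ({π : Perm (Fin n) | 1200 * t ≤ L (Bas (10 ^ 6)) π}.ncard : ℝ) / n.factorial ≤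
      Real.exp (-(4 * t)) := by
    rw [div_le_iff₀ hf]
    refine hmain.trans ?_
    calc ((2 : ℝ) ^ ((n / t + 1) + 2 * i₀)) ^ 2 * (n.factorial *
          Real.exp (((10 ^ 6 : ℕ) : ℝ) * (t * D) / (20 * (990 * t)) - ((1200 * t : ℕ) : ℝ) / 21))
        ≤ Real.exp (2 * D) * (n.factorial *
          Real.exp (((10 ^ 6 : ℕ) : ℝ) * (t * D) / (20 * (990 * t)) - ((1200 * t : ℕ) : ℝ) / 21)) :=
          mul_le_mul_of_nonneg_right hpow (by positivity)
      _ = n.factorial * Real.exp (2 * D +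
          (((10 ^ 6 : ℕ) : ℝ) * (t * D) / (20 * (990 * t)) - ((1200 * t : ℕ) : ℝ) / 21)) := by
          rw [Real.exp_add]
          ring
      _ ≤ n.factorial * Real.exp (-(4 * t)) := by
          apply mul_le_mul_of_nonneg_left _ hf.le
          apply Real.exp_le_exp.mpr
          have ht0 : (t : ℝ) ≠ 0 := by positivity
          have e1 : ((10 ^ 6 : ℕ) : ℝ) * (t * D) / (20 * (990 * t)) = 10 ^ 6 / 19800 * D := by
            push_cast
            field_simp
            ring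
          rw [e1]
          push_cast
          linarith
      _ = Real.exp (-(4 * t)) * n.factorial := by ring
  have hlast : (n : ℝ) * Real.exp (-(4 * t)) ≤ 1 := by
    rw [Real.exp_neg, ← div_eq_mul_inv, div_le_one (Real.exp_pos _)]
    have h3 := Real.quadratic_le_exp_of_nonneg (show (0 : ℝ) ≤ 4 * t by positivity)
    nlinarith
  have h5 := EL_le (n := n) (k := 1200 * t) (m := 10 ^ 6)
  refine h5.trans ?_
  have h6 : (n : ℝ) * (({π : Perm (Fin n) | 1200 * t ≤ L (Bas (10 ^ 6)) π}.ncard : ℝ) /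
      n.factorial) ≤ n * Real.exp (-(4 * t)) := mul_le_mul_of_nonneg_left hprob (by positivity)
  push_cast
  push_cast at h6
  linarith

theorem EL_eventually :
    ∀ᶠ n : ℕ in atTop, EL (Bas (10 ^ 6)) n / √(n : ℝ) ≤ 1201 := by
  filter_upwards [eventually_ge_atTop (100000 ^ 2)] with n hn
  have hs : 100000 ≤ Nat.sqrt n := by
    rw [Nat.le_sqrt']
    exact hn
  have h1 := EL_bound n (Nat.sqrt n + 1) (by omega) (Nat.lt_succ_sqrt' n) (by
    rw [Nat.add_sub_cancel]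
    exact Nat.sqrt_le' n)
  have hsq : (Nat.sqrt n : ℝ) ≤ √(n : ℝ) := Real.nat_sqrt_le_real_sqrt
  have hs' : (100000 : ℝ) ≤ Nat.sqrt n := by exact_mod_cast hs
  rw [div_le_iff₀ (by linarith)]
  rw [Nat.cast_add, Nat.cast_one] at h1
  linarith

theorem fact_ge (m : ℕ) (hm : 0 < m) : ((m : ℝ) / Real.exp 1) ^ m ≤ m.factorial := by
  have h1 := Real.pow_div_factorial_le_exp (m : ℝ) (by positivity) m
  have h2 : (0 : ℝ) < m.factorial := by exact_mod_cast Nat.factorial_pos m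
  rw [div_le_iff₀ h2] at h1
  rw [div_pow, div_le_iff₀ (by positivity), ← Real.exp_nat_mul, mul_one, mul_comm]
  exact h1

theorem growth_frequently (m : ℕ) (hm : 0 < m) :
    ∃ᶠ n : ℕ in atTop, (m : ℝ) / Real.exp 1 ≤ ((Av (Bas m) n).ncard : ℝ) ^ (1 / (n : ℝ)) := by
  rw [Filter.frequently_atTop]
  intro a
  refine ⟨(a + 1) * m, ?_, ?_⟩
  · nlinarith
  · rw [Av_bas]
    have h1 := card_good_ge (q := a + 1) hm
    have h2 : ((m : ℝ) / Real.exp 1) ^ ((a + 1) * m) ≤
        ({π : Perm (Fin ((a + 1) * m)) | Good m π}.ncard : ℝ) := by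
      calc ((m : ℝ) / Real.exp 1) ^ ((a + 1) * m) = (((m : ℝ) / Real.exp 1) ^ m) ^ (a + 1) := by
            rw [← pow_mul, mul_comm]
        _ ≤ ((m.factorial : ℝ)) ^ (a + 1) :=
            pow_le_pow_left₀ (by positivity) (fact_ge m hm) _
        _ ≤ _ := by exact_mod_cast h1
    have h3 : ((a + 1) * m : ℕ) ≠ 0 := by positivity
    calc (m : ℝ) / Real.exp 1 = (((m : ℝ) / Real.exp 1) ^ ((a + 1) * m)) ^
          (1 / (((a + 1) * m : ℕ) : ℝ)) := by
          rw [one_div, Real.pow_rpow_inv_natCast (by positivity) h3]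
      _ ≤ _ := Real.rpow_le_rpow (by positivity) h2 (by positivity)

/-- There is a nonempty `B` such that for the class `A = Av B` (direct sums of permutations of
length at most `10 ^ 6`) `E L_A (Π_n) ≤ 1201 √n` for all large `n`, so that
`c_A ≤ (1201 / 2)² = 360600.25`, while `|A ∩ S_n| ^ (1/n) ≥ 10 ^ 6 / e > 367000` for infinitely
many `n`, so that `s_A > 367000`.  Hence if both limits exist, they do not satisfy `c_A = s_A`. -/
theorem result : ∃ B : Set (Σ k, Perm (Fin k)), B.Nonempty ∧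
    (∀ᶠ n : ℕ in atTop, EL B n / √(n : ℝ) ≤ 2 * √((1201 / 2) ^ 2)) ∧
    ((1201 / 2 : ℝ) ^ 2 < 367000) ∧
    (∃ᶠ n : ℕ in atTop, (367000 : ℝ) ≤ ((Av B n).ncard : ℝ) ^ (1 / (n : ℝ))) ∧
    ¬ ∃ s c : ℝ,
      Tendsto (fun n : ℕ => ((Av B n).ncard : ℝ) ^ (1 / (n : ℝ))) atTop (𝓝 s) ∧
      Tendsto (fun n : ℕ => EL B n / √(n : ℝ)) atTop (𝓝 (2 * √c)) ∧ c = s := by
  have hup : ∀ᶠ n : ℕ in atTop,
      EL (Bas (10 ^ 6)) n / √(n : ℝ) ≤ 2 * √((1201 / 2) ^ 2) := by
    rw [Real.sqrt_sq (by norm_num)]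
    have e1 : (2 : ℝ) * (1201 / 2) = 1201 := by norm_num
    rw [e1]
    exact EL_eventually
  have hlow : ∃ᶠ n : ℕ in atTop,
      (367000 : ℝ) ≤ ((Av (Bas (10 ^ 6)) n).ncard : ℝ) ^ (1 / (n : ℝ)) := by
    apply (growth_frequently (10 ^ 6) (by norm_num)).mono
    intro n hn
    refine le_trans ?_ hn
    rw [le_div_iff₀ (Real.exp_pos 1)]
    have := Real.exp_one_lt_d9
    push_cast
    nlinarith
  refine ⟨Bas (10 ^ 6), Bas_nonempty _, hup, by norm_num, hlow, ?_⟩
  rintro ⟨s, c, hs, hc, rfl⟩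
  have h1 : (367000 : ℝ) ≤ c := by
    by_contra hlt
    push Not at hlt
    have h2 : ∀ᶠ n : ℕ in atTop, ((Av (Bas (10 ^ 6)) n).ncard : ℝ) ^ (1 / (n : ℝ)) < 367000 :=
      hs.eventually_lt_const hlt
    obtain ⟨n, hn1, hn2⟩ := (hlow.and_eventually h2).exists
    linarith
  have h2 : 2 * √c ≤ 2 * √((1201 / 2) ^ 2) := le_of_tendsto hc hup
  have h3 : √((1201 / 2 : ℝ) ^ 2) < √c := by
    apply Real.sqrt_lt_sqrt (by positivity)
    have : (1201 / 2 : ℝ) ^ 2 < 367000 := by norm_num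
    linarith
  linarith

end Pool.Agent.Results.MP_cd0eb5_co.Unequal
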